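import Mathlib

set_option autoImplicit false

/-!
A negative answer to Q1 with connected linear algebraic groups.

For an algebraically closed field `K` of characteristic zero which is not algebraic over `ℚ`
(for instance `K = ℂ`) choose a transcendental element `c` and a derivation `D` of `K` with
`D c = 1`. For `l = c` and for `l = c + ε` let `Λ` be the eight-dimensional algebra
`K[ε]⟨x, y⟩/(ε², x², y², x y - l y x)` and let `G`, `H` be the two groups of affine maps
`r ↦ u r + b` (`u` a unit of `Λ`, `b ∈ Λ`), connected linear algebraic groups of dimension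
sixteen inside `GL_9(K)`. The map `k ↦ k + D(k) ε` identifies the two rings and the two abstract
groups, but no semialgebraic isomorphism exists.
-/

namespace Pool.Agent.Results.MP_83c24b_al.Connected

universe u v

open Matrix

/-! ### Linear algebraic groups as Zariski closed subgroups of the general linear group -/

section Defs

variable {K : Type u} [Field K] {ι κ : Type} [Fintype ι] [DecidableEq ι] [Fintype κ] [DecidableEq κ]

/-- The value of a polynomial in the matrix entries at the invertible matrix `g`. -/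
noncomputable def polyVal (g : GL ι K) (p : MvPolynomial (ι × ι) K) : K :=
  MvPolynomial.eval (fun x => (g : Matrix ι ι K) x.1 x.2) p

/-- The value at `g` of a polynomial in the matrix entries and in the inverse of the determinant. -/
noncomputable def regVal (g : GL ι K) (p : MvPolynomial (Option (ι × ι)) K) : K :=
  MvPolynomial.eval (fun o => Option.elim o ((g : Matrix ι ι K).det)⁻¹
    (fun x => (g : Matrix ι ι K) x.1 x.2)) p

/-- The subgroup `G` of `GL_ι(K)` is Zariski closed. -/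
def IsZariskiClosed (G : Subgroup (GL ι K)) : Prop :=
  ∃ S : Set (MvPolynomial (ι × ι) K), ∀ g : GL ι K, g ∈ G ↔ ∀ p ∈ S, polyVal g p = 0

/-- The subgroup `G` of `GL_ι(K)` is irreducible as an algebraic variety. -/
def IsIrred (G : Subgroup (GL ι K)) : Prop :=
  ∀ p q : MvPolynomial (ι × ι) K, (∀ g ∈ G, polyVal g p * polyVal g q = 0) →
    (∀ g ∈ G, polyVal g p = 0) ∨ (∀ g ∈ G, polyVal g q = 0)

/-- The conjugate group `G^σ`. -/
def conj (σ : K ≃+* K) (G : Subgroup (GL ι K)) : Subgroup (GL ι K) :=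
  G.map (Matrix.GeneralLinearGroup.map (σ : K →+* K))

/-- The homomorphism `σ_* : G → G^σ` applying `σ` to the entries. -/
def conjHom (σ : K ≃+* K) (G : Subgroup (GL ι K)) : G →* conj σ G :=
  (Matrix.GeneralLinearGroup.map (σ : K →+* K)).subgroupMap G

/-- The homomorphism `α` is a morphism of algebraic groups. -/
def IsRational {G : Subgroup (GL ι K)} {H : Subgroup (GL κ K)} (α : G →* H) : Prop :=
  ∀ i j : κ, ∃ p : MvPolynomial (Option (ι × ι)) K, ∀ g : G,
    ((α g : GL κ K) : Matrix κ κ K) i j = regVal (g : GL ι K) p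

/-- The abstract isomorphism `φ` is semialgebraic. -/
def IsSemialgebraic {G : Subgroup (GL ι K)} {H : Subgroup (GL κ K)} (φ : G ≃* H) : Prop :=
  ∃ (σ : K ≃+* K) (α : conj σ G →* H), IsRational α ∧ Function.Bijective α ∧
    ∀ g : G, φ g = α (conjHom σ G g)

/-- The group `G` is not isomorphic to a direct product of two nontrivial groups. -/
def IsIndecomposable (G : Type u) [Group G] : Prop :=
  ∀ (A B : Type u) [Group A] [Group B], Nonempty (G ≃* A × B) → Subsingleton A ∨ Subsingleton B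

end Defs

/-! ### Affine groups of rings -/

/-- The group of maps `r ↦ u * r + b`, `u` a unit of the ring `Λ` and `b ∈ Λ`. -/
@[ext] structure Aff (Λ : Type u) [Ring Λ] where
  u : Λˣ
  b : Λ

namespace Aff

variable {Λ : Type u} [Ring Λ]

instance : Mul (Aff Λ) := ⟨fun g h => ⟨g.u * h.u, g.b + g.u * h.b⟩⟩
instance : One (Aff Λ) := ⟨⟨1, 0⟩⟩
instance : Inv (Aff Λ) := ⟨fun g => ⟨g.u⁻¹, -(g.u⁻¹ * g.b)⟩⟩

@[simp] lemma mul_u (g h : Aff Λ) : (g * h).u = g.u * h.u := rfl
@[simp] lemma mul_b (g h : Aff Λ) : (g * h).b = g.b + g.u * h.b := rfl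
@[simp] lemma one_u : (1 : Aff Λ).u = 1 := rfl
@[simp] lemma one_b : (1 : Aff Λ).b = 0 := rfl
@[simp] lemma inv_u (g : Aff Λ) : (g⁻¹).u = g.u⁻¹ := rfl
@[simp] lemma inv_b (g : Aff Λ) : (g⁻¹).b = -(g.u⁻¹ * g.b) := rfl

instance : Group (Aff Λ) :=
  Group.ofLeftAxioms
    (fun g h k => by ext <;> simp [mul_assoc, mul_add, add_assoc])
    (fun g => by ext <;> simp)
    (fun g => by ext <;> simp)

end Aff

/-- The hypotheses on the ring: `2` is invertible and the only square roots of `1` are `±1`. -/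
structure Good (Λ : Type u) [Ring Λ] : Prop where
  nt : Nontrivial Λ
  two : IsUnit (2 : Λ)
  sq : ∀ a : Λ, a * a = 1 → a = 1 ∨ a = -1

section Good

variable {Λ : Type u} [Ring Λ] (hΛ : Good Λ)
include hΛ

lemma Good.two_mul_eq_zero {a : Λ} (h : a + a = 0) : a = 0 := by
  rw [← two_mul] at h
  exact (hΛ.two.mul_right_eq_zero).mp h

lemma Good.one_ne_neg_one : (1 : Λ) ≠ -1 := by
  intro h
  have := hΛ.nt
  have h2 : (1 : Λ) + 1 = 0 := by
    nth_rewrite 1 [h]
    simp
  exact one_ne_zero (hΛ.two_mul_eq_zero h2)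

lemma Good.one_ne_neg_one' : (1 : Λˣ) ≠ -1 := by
  intro h
  exact hΛ.one_ne_neg_one (by simpa using congrArg Units.val h)

lemma Good.involution {g : Aff Λ} (h : g * g = 1) : g = 1 ∨ g.u = -1 := by
  have h1 : (g.u : Λ) * g.u = 1 := by
    have := congrArg Aff.u h
    simpa using congrArg Units.val this
  rcases hΛ.sq _ h1 with h2 | h2
  · left
    have h3 : g.u = 1 := Units.ext h2
    have h4 : g.b + g.u * g.b = 0 := by simpa using congrArg Aff.b h
    rw [h3] at h4
    have h5 : g.b = 0 := hΛ.two_mul_eq_zero (by simpa using h4)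
    ext
    · simp [h3]
    · simp [h5]
  · right
    exact Units.ext (by simpa using h2)

lemma Good.mem_trans_iff {g : Aff Λ} : g.u = 1 ↔
    ∃ a b : Aff Λ, a * a = 1 ∧ b * b = 1 ∧ ((a = 1 ∧ b = 1) ∨ (a ≠ 1 ∧ b ≠ 1)) ∧ g = a * b := by
  constructor
  · intro h
    refine ⟨⟨-1, g.b⟩, ⟨-1, 0⟩, ?_, ?_, Or.inr ⟨?_, ?_⟩, ?_⟩
    · ext <;> simp
    · ext <;> simp
    · intro h'
      exact hΛ.one_ne_neg_one' (congrArg Aff.u h').symm
    · intro h'
      exact hΛ.one_ne_neg_one' (congrArg Aff.u h').symm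
    · ext <;> simp [h]
  · rintro ⟨a, b, ha, hb, hab, rfl⟩
    rcases hab with ⟨rfl, rfl⟩ | ⟨h1, h2⟩
    · simp
    · rcases hΛ.involution ha with h3 | h3
      · exact absurd h3 h1
      · rcases hΛ.involution hb with h4 | h4
        · exact absurd h4 h2
        · simp [h3, h4]

lemma Good.eq_one_of_comm {g : Aff Λ} (h1 : g * ⟨-1, 0⟩ = ⟨-1, 0⟩ * g)
    (h2 : ∀ r : Λ, g * ⟨1, r + r⟩ = ⟨1, r + r⟩ * g) : g = 1 := by
  have h3 : g.b = 0 := by
    have := congrArg Aff.b h1
    simp only [Aff.mul_b, mul_zero, add_zero, Units.val_neg, Units.val_one, neg_mul, one_mul,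
      zero_add] at this
    exact hΛ.two_mul_eq_zero (by
      nth_rewrite 1 [this]
      simp)
  have h4 : (g.u : Λ) = 1 := by
    have := congrArg Aff.b (h2 1)
    simp only [Aff.mul_b, h3, zero_add, Units.val_one, mul_zero, add_zero, mul_add, mul_one] at this
    have h5 : ((g.u : Λ) - 1) + ((g.u : Λ) - 1) = 0 := by
      have h6 : ((g.u : Λ) - 1) + ((g.u : Λ) - 1) = (g.u + g.u : Λ) - (1 + 1) := by abel
      rw [h6, this, sub_self]
    exact sub_eq_zero.mp (hΛ.two_mul_eq_zero h5)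
  ext
  · simp [h4]
  · simp [h3]

lemma Good.center_eq_bot : Subgroup.center (Aff Λ) = ⊥ := by
  rw [eq_bot_iff]
  intro g hg
  rw [Subgroup.mem_center_iff] at hg
  rw [Subgroup.mem_bot]
  exact hΛ.eq_one_of_comm (hg _).symm (fun r => (hg _).symm)

lemma Good.subsingleton_right {A B : Type v} [Group A] [Group B] (e : Aff Λ ≃* A × B)
    (h : (e ⟨-1, 0⟩).2 = 1) : Subsingleton B := by
  refine ⟨fun x y => ?_⟩
  have key : ∀ x : B, x = 1 := by
    intro x
    have hg : e.symm (1, x) = 1 := by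
      have hc1 : e.symm (1, x) * ⟨-1, 0⟩ = ⟨-1, 0⟩ * e.symm (1, x) := by
        apply e.injective
        rw [map_mul, map_mul, e.apply_symm_apply]
        ext <;> simp [h]
      have hc : ∀ r : Λ, e.symm (1, x) * ⟨-1, r + r⟩ = ⟨-1, r + r⟩ * e.symm (1, x) := by
        intro r
        have h3 : (⟨-1, r + r⟩ : Aff Λ) = ⟨1, r⟩ * ⟨-1, 0⟩ * (⟨1, r⟩)⁻¹ := by
          ext <;> simp
        have h4 : (e ⟨-1, r + r⟩).2 = 1 := by
          rw [h3, map_mul, map_mul, Prod.snd_mul, Prod.snd_mul, h, mul_one, ← Prod.snd_mul,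
            ← map_mul, mul_inv_cancel, map_one]
          rfl
        apply e.injective
        rw [map_mul, map_mul, e.apply_symm_apply]
        ext <;> simp [h4]
      refine hΛ.eq_one_of_comm hc1 fun r => ?_
      have h5 : (⟨1, r + r⟩ : Aff Λ) = ⟨-1, r + r⟩ * ⟨-1, 0⟩ := by
        ext <;> simp
      rw [h5, ← mul_assoc, hc, mul_assoc, hc1, mul_assoc]
    have h6 : ((1, x) : A × B) = 1 := by
      rw [← e.apply_symm_apply (1, x), hg, map_one]
    exact congrArg Prod.snd h6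
  rw [key x, key y]

lemma Good.indecomposable {A B : Type v} [Group A] [Group B] (e : Aff Λ ≃* A × B) :
    Subsingleton A ∨ Subsingleton B := by
  set g1 := e.symm ((e ⟨-1, 0⟩).1, 1) with hg1
  set g2 := e.symm (1, (e ⟨-1, 0⟩).2) with hg2
  have hh : (⟨-1, 0⟩ : Aff Λ) * ⟨-1, 0⟩ = 1 := by ext <;> simp
  have hh1 : (e ⟨-1, 0⟩).1 * (e ⟨-1, 0⟩).1 = 1 := by
    rw [← Prod.fst_mul, ← map_mul, hh, map_one]; rfl
  have hh2 : (e ⟨-1, 0⟩).2 * (e ⟨-1, 0⟩).2 = 1 := by
    rw [← Prod.snd_mul, ← map_mul, hh, map_one]; rfl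
  have h1 : g1 * g1 = 1 := by
    rw [hg1, ← map_mul]
    simp [hh1]
  have h2 : g2 * g2 = 1 := by
    rw [hg2, ← map_mul]
    simp [hh2]
  have h12 : g1 * g2 = ⟨-1, 0⟩ := by
    rw [hg1, hg2, ← map_mul]
    simp
  rcases hΛ.involution h1 with h3 | h3
  · left
    -- first component trivial
    have h4 : (e ⟨-1, 0⟩).1 = 1 := by
      have : e g1 = 1 := by rw [h3, map_one]
      rw [hg1, e.apply_symm_apply] at this
      exact congrArg Prod.fst this
    exact hΛ.subsingleton_right (e.trans (MulEquiv.prodComm)) (by simpa using h4)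
  · rcases hΛ.involution h2 with h5 | h5
    · right
      have h4 : (e ⟨-1, 0⟩).2 = 1 := by
        have : e g2 = 1 := by rw [h5, map_one]
        rw [hg2, e.apply_symm_apply] at this
        exact congrArg Prod.snd this
      exact hΛ.subsingleton_right e h4
    · exfalso
      have h6 := congrArg Aff.u h12
      rw [Aff.mul_u, h3, h5] at h6
      simp only [mul_neg, mul_one, neg_neg] at h6
      exact hΛ.one_ne_neg_one' h6

end Good

/-- hypotheses on a local ring with residue map -/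
structure Loc (Λ : Type u) [Ring Λ] : Prop extends Good Λ where
  unit_or : ∀ a : Λ, IsUnit a ∨ IsUnit (a + 1)
  unit_of_mul : ∀ a b : Λ, a * b = 1 → IsUnit b

section transfer

variable {Λ₁ : Type u} {Λ₂ : Type v} [Ring Λ₁] [Ring Λ₂] (h₁ : Loc Λ₁) (h₂ : Loc Λ₂)
  (Φ : Aff Λ₁ ≃* Aff Λ₂)

include h₁ h₂ in
lemma trans_iff (g : Aff Λ₁) : g.u = 1 ↔ (Φ g).u = 1 := by
  rw [h₁.toGood.mem_trans_iff, h₂.toGood.mem_trans_iff]
  constructor
  · rintro ⟨a, b, ha, hb, hab, hg⟩
    refine ⟨Φ a, Φ b, ?_, ?_, ?_, ?_⟩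
    · rw [← map_mul, ha, map_one]
    · rw [← map_mul, hb, map_one]
    · rcases hab with ⟨h3, h4⟩ | ⟨h3, h4⟩
      · left; rw [h3, h4]; simp
      · right
        exact ⟨fun h => h3 ((map_eq_one_iff Φ Φ.injective).mp h),
          fun h => h4 ((map_eq_one_iff Φ Φ.injective).mp h)⟩
    · rw [hg, map_mul]
  · rintro ⟨a, b, ha, hb, hab, hg⟩
    refine ⟨Φ.symm a, Φ.symm b, ?_, ?_, ?_, ?_⟩
    · rw [← map_mul, ha, map_one]
    · rw [← map_mul, hb, map_one]
    · rcases hab with ⟨h3, h4⟩ | ⟨h3, h4⟩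
      · left; rw [h3, h4]; simp
      · right
        exact ⟨fun h => h3 ((map_eq_one_iff Φ.symm Φ.symm.injective).mp h),
          fun h => h4 ((map_eq_one_iff Φ.symm Φ.symm.injective).mp h)⟩
    · rw [← map_mul, ← hg, MulEquiv.symm_apply_apply]

include h₁ h₂ in
/-- The ring isomorphism induced by a group isomorphism. -/
lemma exists_ringEquiv : ∃ (θ : Λ₁ ≃+* Λ₂) (e : Λ₂), IsUnit e ∧
    ∀ x : Λ₁, Φ ⟨1, x⟩ = ⟨1, θ x * e⟩ := by
  have hu : ∀ x : Λ₁, (Φ ⟨1, x⟩).u = 1 := fun x => (trans_iff h₁ h₂ Φ ⟨1, x⟩).mp rfl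
  set f : Λ₁ → Λ₂ := fun x => (Φ ⟨1, x⟩).b with hf
  have hfΦ : ∀ x, Φ ⟨1, x⟩ = ⟨1, f x⟩ := fun x => by
    ext
    · simp [hu x]
    · rfl
  have hadd : ∀ x y, f (x + y) = f x + f y := by
    intro x y
    have h3 : (⟨1, x + y⟩ : Aff Λ₁) = ⟨1, x⟩ * ⟨1, y⟩ := by ext <;> simp
    have h4 := congrArg Aff.b (congrArg Φ h3)
    rw [map_mul, hfΦ, hfΦ, hfΦ] at h4
    simpa using h4
  have hsurj : Function.Surjective f := by
    intro y
    obtain ⟨g, hg⟩ := Φ.surjective ⟨1, y⟩
    have h3 : g.u = 1 := (trans_iff h₁ h₂ Φ g).mpr (by rw [hg])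
    refine ⟨g.b, ?_⟩
    have h4 : (⟨1, g.b⟩ : Aff Λ₁) = g := by
      ext
      · simp [h3]
      · rfl
    change (Φ ⟨1, g.b⟩).b = y
    rw [h4, hg]
  have hinj : Function.Injective f := by
    intro x y hxy
    have h3 : Φ ⟨1, x⟩ = Φ ⟨1, y⟩ := by rw [hfΦ, hfΦ, hxy]
    exact congrArg Aff.b (Φ.injective h3)
  set ψ : Λ₁ˣ → Λ₂ˣ := fun u => (Φ ⟨u, 0⟩).u with hψ
  have hact : ∀ (u : Λ₁ˣ) (x : Λ₁), f (u * x) = ψ u * f x := by
    intro u x
    have h3 : (⟨1, u * x⟩ : Aff Λ₁) * ⟨u, 0⟩ = ⟨u, 0⟩ * ⟨1, x⟩ := by ext <;> simp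
    have h4 := congrArg Φ h3
    rw [map_mul, map_mul, hfΦ, hfΦ] at h4
    have h5 := congrArg Aff.b h4
    simp only [Aff.mul_b, Units.val_one, one_mul] at h5
    rw [add_comm] at h5
    exact add_left_cancel h5
  have hzero : f 0 = 0 := by
    have := hadd 0 0
    rw [add_zero] at this
    exact left_eq_add.mp this
  have hneg : ∀ x, f (-x) = - f x := by
    intro x
    have := hadd x (-x)
    rw [add_neg_cancel, hzero] at this
    exact (neg_eq_of_add_eq_zero_right this.symm).symm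
  -- every value is a multiple of `f 1`
  have hmul : ∀ x, ∃ y : Λ₂, f x = y * f 1 ∧ ∀ z, f (x * z) = y * f z := by
    intro x
    rcases h₁.unit_or x with h | h
    · obtain ⟨u, rfl⟩ := h
      refine ⟨ψ u, ?_, fun z => hact u z⟩
      have := hact u 1
      rwa [mul_one] at this
    · obtain ⟨u, hu'⟩ := h
      have hx : x = u + (-1 : Λ₁) := by rw [hu']; abel
      refine ⟨ψ u - 1, ?_, fun z => ?_⟩
      · rw [hx, hadd, hneg]
        have := hact u 1
        rw [mul_one] at this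
        rw [this, sub_mul, one_mul, sub_eq_add_neg]
      · rw [hx, add_mul, hadd, hact, sub_mul, one_mul, neg_mul, one_mul, hneg, sub_eq_add_neg]
  have he : IsUnit (f 1) := by
    obtain ⟨x, hx⟩ := hsurj 1
    obtain ⟨y, hy, -⟩ := hmul x
    exact h₂.unit_of_mul y (f 1) (by rw [← hy, hx])
  obtain ⟨e, he'⟩ := he
  have hmul' : ∀ x z, f (x * z) = (f x * (e⁻¹ : Λ₂ˣ)) * f z := by
    intro x z
    obtain ⟨y, hy, hy'⟩ := hmul x
    rw [hy' z, hy, ← he', mul_assoc y, Units.mul_inv, mul_one]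
  let θ : Λ₁ ≃+* Λ₂ :=
    { toFun := fun x => f x * (e⁻¹ : Λ₂ˣ)
      invFun := fun y => (Equiv.ofBijective f ⟨hinj, hsurj⟩).symm (y * e)
      left_inv := fun x => by
        change (Equiv.ofBijective f ⟨hinj, hsurj⟩).symm ((f x * (e⁻¹ : Λ₂ˣ)) * e) = x
        rw [mul_assoc, Units.inv_mul, mul_one]
        exact (Equiv.ofBijective f ⟨hinj, hsurj⟩).symm_apply_apply x
      right_inv := fun y => by
        change f ((Equiv.ofBijective f ⟨hinj, hsurj⟩).symm (y * e)) * (e⁻¹ : Λ₂ˣ) = y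
        rw [Equiv.ofBijective_apply_symm_apply f ⟨hinj, hsurj⟩, mul_assoc, Units.mul_inv, mul_one]
      map_mul' := fun x y => by
        rw [hmul', ← mul_assoc]
      map_add' := fun x y => by
        rw [hadd, add_mul] }
  refine ⟨θ, e, e.isUnit, fun x => ?_⟩
  rw [hfΦ]
  change (⟨1, f x⟩ : Aff Λ₂) = ⟨1, (f x * (e⁻¹ : Λ₂ˣ)) * e⟩
  rw [mul_assoc, Units.inv_mul, mul_one]

end transfer

/-- The eight-dimensional algebra `K[ε]⟨x, y⟩/(x², y², xy - (l0 + l1 ε) yx)` with basis
`1, ε, x, εx, y, εy, yx, εyx`. -/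
@[ext] structure Lam (K : Type u) (l0 l1 : K) where
  p0 : K
  p1 : K
  a0 : K
  a1 : K
  b0 : K
  b1 : K
  z0 : K
  z1 : K

namespace Lam

variable {K : Type u} [Field K] {l0 l1 : K}

instance : Zero (Lam K l0 l1) := ⟨⟨0, 0, 0, 0, 0, 0, 0, 0⟩⟩
instance : One (Lam K l0 l1) := ⟨⟨1, 0, 0, 0, 0, 0, 0, 0⟩⟩
instance : Add (Lam K l0 l1) := ⟨fun s t => ⟨s.p0 + t.p0, s.p1 + t.p1, s.a0 + t.a0, s.a1 + t.a1,
  s.b0 + t.b0, s.b1 + t.b1, s.z0 + t.z0, s.z1 + t.z1⟩⟩
instance : Neg (Lam K l0 l1) := ⟨fun s => ⟨-s.p0, -s.p1, -s.a0, -s.a1, -s.b0, -s.b1, -s.z0, -s.z1⟩⟩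
instance : Mul (Lam K l0 l1) := ⟨fun s t => ⟨s.p0 * t.p0, s.p0 * t.p1 + s.p1 * t.p0,
  s.p0 * t.a0 + s.a0 * t.p0, s.p0 * t.a1 + s.p1 * t.a0 + s.a0 * t.p1 + s.a1 * t.p0,
  s.p0 * t.b0 + s.b0 * t.p0, s.p0 * t.b1 + s.p1 * t.b0 + s.b0 * t.p1 + s.b1 * t.p0,
  s.p0 * t.z0 + s.z0 * t.p0 + s.b0 * t.a0 + l0 * (s.a0 * t.b0),
  s.p0 * t.z1 + s.p1 * t.z0 + s.z0 * t.p1 + s.z1 * t.p0 + s.b0 * t.a1 + s.b1 * t.a0 +
    l0 * (s.a0 * t.b1 + s.a1 * t.b0) + l1 * (s.a0 * t.b0)⟩⟩

section simps
variable (s t : Lam K l0 l1)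
@[simp] lemma zero_p0 : (0 : Lam K l0 l1).p0 = 0 := rfl
@[simp] lemma zero_p1 : (0 : Lam K l0 l1).p1 = 0 := rfl
@[simp] lemma zero_a0 : (0 : Lam K l0 l1).a0 = 0 := rfl
@[simp] lemma zero_a1 : (0 : Lam K l0 l1).a1 = 0 := rfl
@[simp] lemma zero_b0 : (0 : Lam K l0 l1).b0 = 0 := rfl
@[simp] lemma zero_b1 : (0 : Lam K l0 l1).b1 = 0 := rfl
@[simp] lemma zero_z0 : (0 : Lam K l0 l1).z0 = 0 := rfl
@[simp] lemma zero_z1 : (0 : Lam K l0 l1).z1 = 0 := rfl
@[simp] lemma one_p0 : (1 : Lam K l0 l1).p0 = 1 := rfl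
@[simp] lemma one_p1 : (1 : Lam K l0 l1).p1 = 0 := rfl
@[simp] lemma one_a0 : (1 : Lam K l0 l1).a0 = 0 := rfl
@[simp] lemma one_a1 : (1 : Lam K l0 l1).a1 = 0 := rfl
@[simp] lemma one_b0 : (1 : Lam K l0 l1).b0 = 0 := rfl
@[simp] lemma one_b1 : (1 : Lam K l0 l1).b1 = 0 := rfl
@[simp] lemma one_z0 : (1 : Lam K l0 l1).z0 = 0 := rfl
@[simp] lemma one_z1 : (1 : Lam K l0 l1).z1 = 0 := rfl
@[simp] lemma add_p0 : (s + t).p0 = s.p0 + t.p0 := rfl
@[simp] lemma add_p1 : (s + t).p1 = s.p1 + t.p1 := rfl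
@[simp] lemma add_a0 : (s + t).a0 = s.a0 + t.a0 := rfl
@[simp] lemma add_a1 : (s + t).a1 = s.a1 + t.a1 := rfl
@[simp] lemma add_b0 : (s + t).b0 = s.b0 + t.b0 := rfl
@[simp] lemma add_b1 : (s + t).b1 = s.b1 + t.b1 := rfl
@[simp] lemma add_z0 : (s + t).z0 = s.z0 + t.z0 := rfl
@[simp] lemma add_z1 : (s + t).z1 = s.z1 + t.z1 := rfl
@[simp] lemma neg_p0 : (-s).p0 = -s.p0 := rfl
@[simp] lemma neg_p1 : (-s).p1 = -s.p1 := rfl
@[simp] lemma neg_a0 : (-s).a0 = -s.a0 := rfl
@[simp] lemma neg_a1 : (-s).a1 = -s.a1 := rfl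
@[simp] lemma neg_b0 : (-s).b0 = -s.b0 := rfl
@[simp] lemma neg_b1 : (-s).b1 = -s.b1 := rfl
@[simp] lemma neg_z0 : (-s).z0 = -s.z0 := rfl
@[simp] lemma neg_z1 : (-s).z1 = -s.z1 := rfl
@[simp] lemma mul_p0 : (s * t).p0 = s.p0 * t.p0 := rfl
@[simp] lemma mul_p1 : (s * t).p1 = s.p0 * t.p1 + s.p1 * t.p0 := rfl
@[simp] lemma mul_a0 : (s * t).a0 = s.p0 * t.a0 + s.a0 * t.p0 := rfl
@[simp] lemma mul_a1 : (s * t).a1 =
  s.p0 * t.a1 + s.p1 * t.a0 + s.a0 * t.p1 + s.a1 * t.p0 := rfl
@[simp] lemma mul_b0 : (s * t).b0 = s.p0 * t.b0 + s.b0 * t.p0 := rfl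
@[simp] lemma mul_b1 : (s * t).b1 =
  s.p0 * t.b1 + s.p1 * t.b0 + s.b0 * t.p1 + s.b1 * t.p0 := rfl
@[simp] lemma mul_z0 : (s * t).z0 =
  s.p0 * t.z0 + s.z0 * t.p0 + s.b0 * t.a0 + l0 * (s.a0 * t.b0) := rfl
@[simp] lemma mul_z1 : (s * t).z1 =
  s.p0 * t.z1 + s.p1 * t.z0 + s.z0 * t.p1 + s.z1 * t.p0 + s.b0 * t.a1 + s.b1 * t.a0 +
    l0 * (s.a0 * t.b1 + s.a1 * t.b0) + l1 * (s.a0 * t.b0) := rfl
end simps

instance : Ring (Lam K l0 l1) :=
  Ring.ofMinimalAxioms
    (fun s t r => by ext <;> simp <;> ring)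
    (fun s => by ext <;> simp)
    (fun s => by ext <;> simp)
    (fun s t r => by ext <;> simp <;> ring)
    (fun s => by ext <;> simp)
    (fun s => by ext <;> simp)
    (fun s t r => by ext <;> simp <;> ring)
    (fun s t r => by ext <;> simp <;> ring)

lemma two_p0 : (2 : Lam K l0 l1).p0 = 2 := by
  have h : (2 : Lam K l0 l1) = 1 + 1 := one_add_one_eq_two.symm
  rw [h, add_p0, one_p0, one_add_one_eq_two]

/-- the embedding of the base field -/
def ofK : K →+* Lam K l0 l1 where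
  toFun k := ⟨k, 0, 0, 0, 0, 0, 0, 0⟩
  map_one' := rfl
  map_mul' k k' := by ext <;> simp
  map_zero' := rfl
  map_add' k k' := by ext <;> simp

instance : Algebra K (Lam K l0 l1) :=
  RingHom.toAlgebra' ofK (fun k s => by ext <;> simp [ofK] <;> ring)

lemma algebraMap_def (k : K) : algebraMap K (Lam K l0 l1) k = ⟨k, 0, 0, 0, 0, 0, 0, 0⟩ := rfl

lemma smul_def (k : K) (s : Lam K l0 l1) : k • s = ⟨k * s.p0, k * s.p1, k * s.a0, k * s.a1,
    k * s.b0, k * s.b1, k * s.z0, k * s.z1⟩ := by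
  rw [Algebra.smul_def, algebraMap_def]
  ext <;> simp

lemma isUnit_of_ne (s : Lam K l0 l1) (h : s.p0 ≠ 0) : IsUnit s := by
  -- two-sided inverse
  obtain ⟨q0, hq⟩ : ∃ q0, q0 = s.p0⁻¹ := ⟨_, rfl⟩
  obtain ⟨q1, hq1⟩ : ∃ q1, q1 = -s.p1 * q0 ^ 2 := ⟨_, rfl⟩
  let t : Lam K l0 l1 := ⟨q0, q1, -(q0 * q0 * s.a0), -(2 * q0 * q1 * s.a0 + q0 * q0 * s.a1),
    -(q0 * q0 * s.b0), -(2 * q0 * q1 * s.b0 + q0 * q0 * s.b1),
    -(q0 * q0 * s.z0) + q0 ^ 3 * (1 + l0) * (s.a0 * s.b0),
    -(2 * q0 * q1 * s.z0 + q0 * q0 * s.z1) + 3 * q0 ^ 2 * q1 * (1 + l0) * (s.a0 * s.b0) +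
      q0 ^ 3 * l1 * (s.a0 * s.b0) + q0 ^ 3 * (1 + l0) * (s.a0 * s.b1 + s.a1 * s.b0)⟩
  have h1 : s * t = 1 := by
    ext <;> simp [t, hq1, hq] <;> field_simp <;> ring
  have h2 : t * s = 1 := by
    ext <;> simp [t, hq1, hq] <;> field_simp <;> ring
  exact ⟨⟨s, t, h1, h2⟩, rfl⟩

end Lam

namespace Lam

variable {K : Type u} [Field K] {l0 l1 : K}

lemma isUnit_iff (s : Lam K l0 l1) : IsUnit s ↔ s.p0 ≠ 0 := by
  constructor
  · rintro ⟨u, rfl⟩ h
    have h1 : (u : Lam K l0 l1) * ((u⁻¹ : (Lam K l0 l1)ˣ) : Lam K l0 l1) = 1 := Units.mul_inv u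
    have h2 := congrArg Lam.p0 h1
    rw [mul_p0, h, zero_mul, one_p0] at h2
    exact zero_ne_one h2
  · exact isUnit_of_ne s

lemma loc [CharZero K] : Loc (Lam K l0 l1) where
  nt := ⟨0, 1, fun h => zero_ne_one (congrArg Lam.p0 h)⟩
  two := isUnit_of_ne _ (by rw [two_p0]; exact two_ne_zero)
  sq := by
    intro s hs
    have h1 : s.p0 * s.p0 = 1 := by simpa using congrArg Lam.p0 hs
    have hp0 : s.p0 ≠ 0 := by
      intro h
      rw [h, mul_zero] at h1
      exact zero_ne_one h1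
    have key : ∀ t : K, s.p0 * t + t * s.p0 = 0 → t = 0 := by
      intro t ht
      have : (2 * s.p0) * t = 0 := by rw [← ht]; ring
      exact (mul_eq_zero.mp this).resolve_left (mul_ne_zero two_ne_zero hp0)
    have e1 : s.p1 = 0 := key _ (by simpa using congrArg Lam.p1 hs)
    have e2 : s.a0 = 0 := key _ (by simpa using congrArg Lam.a0 hs)
    have e3 : s.a1 = 0 := key _ (by simpa [e1, e2] using congrArg Lam.a1 hs)
    have e4 : s.b0 = 0 := key _ (by simpa using congrArg Lam.b0 hs)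
    have e5 : s.b1 = 0 := key _ (by simpa [e1, e4] using congrArg Lam.b1 hs)
    have e6 : s.z0 = 0 := key _ (by simpa [e2, e4] using congrArg Lam.z0 hs)
    have e7 : s.z1 = 0 := key _ (by simpa [e1, e2, e3, e4, e5, e6] using congrArg Lam.z1 hs)
    rcases mul_self_eq_one_iff.mp h1 with h | h
    · left
      ext <;> simp [e1, e2, e3, e4, e5, e6, e7, h]
    · right
      ext <;> simp [e1, e2, e3, e4, e5, e6, e7, h]
  unit_or := by
    intro s
    by_cases h : s.p0 = 0
    · right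
      exact isUnit_of_ne _ (by simp [h])
    · left
      exact isUnit_of_ne _ h
  unit_of_mul := by
    intro s t h
    refine isUnit_of_ne _ fun h2 => ?_
    have h3 := congrArg Lam.p0 h
    rw [mul_p0, h2, mul_zero, one_p0] at h3
    exact zero_ne_one h3

/-- The ring isomorphism coming from a derivation of `K`. -/
def twist (c : K) (D : K → K) (hadd : ∀ x y, D (x + y) = D x + D y)
    (hmul : ∀ x y, D (x * y) = x * D y + D x * y) (hc : D c = 1) :
    Lam K c 0 ≃+* Lam K c 1 where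
  toFun s := ⟨s.p0, s.p1 + D s.p0, s.a0, s.a1 + D s.a0, s.b0, s.b1 + D s.b0, s.z0, s.z1 + D s.z0⟩
  invFun s := ⟨s.p0, s.p1 - D s.p0, s.a0, s.a1 - D s.a0, s.b0, s.b1 - D s.b0, s.z0, s.z1 - D s.z0⟩
  left_inv s := by ext <;> simp
  right_inv s := by ext <;> simp
  map_add' s t := by ext <;> simp [hadd] <;> ring
  map_mul' s t := by ext <;> simp [hadd, hmul, hc] <;> ring

/-- There is no ring isomorphism `Lam K c 0 ≃ Lam K c 1` which maps `K` onto `K`. -/
lemma no_iso [CharZero K] (c : K) (h1 : c ≠ 1) (h2 : c ≠ -1) (θ : Lam K c 0 ≃+* Lam K c 1)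
    (σ : K → K) (hσ : ∀ k, θ (algebraMap K _ k) = algebraMap K _ (σ k)) : False := by
  have hc1 : (1 : K) + c ≠ 0 := fun h => h2 (by linear_combination h)
  have hc2 : (1 : K) - c ≠ 0 := fun h => h1 (by linear_combination -h)
  let x : Lam K c 0 := ⟨0, 0, 1, 0, 0, 0, 0, 0⟩
  let y : Lam K c 0 := ⟨0, 0, 0, 0, 1, 0, 0, 0⟩
  let e : Lam K c 0 := ⟨0, 1, 0, 0, 0, 0, 0, 0⟩
  obtain ⟨X, hX⟩ : ∃ X, X = θ x := ⟨_, rfl⟩
  obtain ⟨Y, hY⟩ : ∃ Y, Y = θ y := ⟨_, rfl⟩
  obtain ⟨E, hE⟩ : ∃ E, E = θ e := ⟨_, rfl⟩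
  have hXX : X * X = 0 := by
    rw [hX, ← map_mul]
    have : x * x = 0 := by ext <;> simp [x]
    rw [this, map_zero]
  have hYY : Y * Y = 0 := by
    rw [hY, ← map_mul]
    have : y * y = 0 := by ext <;> simp [y]
    rw [this, map_zero]
  have hEE : E * E = 0 := by
    rw [hE, ← map_mul]
    have : e * e = 0 := by ext <;> simp [e]
    rw [this, map_zero]
  have hXY : X * Y = algebraMap K _ (σ c) * (Y * X) := by
    rw [hX, hY, ← map_mul, ← map_mul, ← hσ, ← map_mul]
    congr 1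
    ext <;> simp [x, y, algebraMap_def]
  have hcomm : ∀ s, E * s = s * E := by
    intro s
    obtain ⟨t, rfl⟩ := θ.surjective s
    rw [hE, ← map_mul, ← map_mul]
    congr 1
    ext <;> simp [e]
  have hne : E * (Y * X) ≠ 0 := by
    rw [hX, hY, hE, ← map_mul, ← map_mul]
    intro h
    have h3 : e * (y * x) = 0 := θ.injective (by rw [h, map_zero])
    have h4 := congrArg Lam.z1 h3
    simp [e, y, x] at h4
  -- components of `E`
  have hEa : E.a0 = 0 ∧ E.a1 = 0 := by
    have h3 := hcomm ⟨0, 0, 0, 0, 1, 0, 0, 0⟩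
    have h4 := congrArg Lam.z0 h3
    have h5 := congrArg Lam.z1 h3
    simp at h4 h5
    have h6 : E.a0 = 0 := by
      have : (1 - c) * E.a0 = 0 := by linear_combination -h4
      exact (mul_eq_zero.mp this).resolve_left hc2
    refine ⟨h6, ?_⟩
    rw [h6] at h5
    have : (1 - c) * E.a1 = 0 := by linear_combination -h5
    exact (mul_eq_zero.mp this).resolve_left hc2
  have hEb : E.b0 = 0 ∧ E.b1 = 0 := by
    have h3 := hcomm ⟨0, 0, 1, 0, 0, 0, 0, 0⟩
    have h4 := congrArg Lam.z0 h3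
    have h5 := congrArg Lam.z1 h3
    simp at h4 h5
    have h6 : E.b0 = 0 := by
      have : (1 - c) * E.b0 = 0 := by linear_combination h4
      exact (mul_eq_zero.mp this).resolve_left hc2
    refine ⟨h6, ?_⟩
    rw [h6] at h5
    have : (1 - c) * E.b1 = 0 := by linear_combination h5
    exact (mul_eq_zero.mp this).resolve_left hc2
  have sq0 : ∀ t : K, t * t = 0 → t = 0 := fun t h => mul_self_eq_zero.mp h
  have hEp : E.p0 = 0 := sq0 _ (by simpa using congrArg Lam.p0 hEE)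
  have hXp : X.p0 = 0 := sq0 _ (by simpa using congrArg Lam.p0 hXX)
  have hYp : Y.p0 = 0 := sq0 _ (by simpa using congrArg Lam.p0 hYY)
  -- relations from squares
  have sqrel : ∀ S : Lam K c 1, S.p0 = 0 → S * S = 0 →
      S.p1 * S.a0 = 0 ∧ S.p1 * S.b0 = 0 ∧ S.a0 * S.b0 = 0 ∧
      2 * (S.p1 * S.z0) + (1 + c) * (S.a0 * S.b1 + S.a1 * S.b0) = 0 := by
    intro S hp hS
    have r1 := congrArg Lam.a1 hS
    have r2 := congrArg Lam.b1 hS
    have r3 := congrArg Lam.z0 hS
    have r4 := congrArg Lam.z1 hS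
    simp only [mul_a1, mul_b1, mul_z0, mul_z1, hp, zero_a1, zero_b1, zero_z0, zero_z1] at r1 r2 r3 r4
    have q3 : S.a0 * S.b0 = 0 := by
      have : (1 + c) * (S.a0 * S.b0) = 0 := by linear_combination r3
      exact (mul_eq_zero.mp this).resolve_left hc1
    refine ⟨?_, ?_, q3, ?_⟩
    · have : (2 : K) * (S.p1 * S.a0) = 0 := by linear_combination r1
      exact (mul_eq_zero.mp this).resolve_left two_ne_zero
    · have : (2 : K) * (S.p1 * S.b0) = 0 := by linear_combination r2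
      exact (mul_eq_zero.mp this).resolve_left two_ne_zero
    · linear_combination r4 - q3
  obtain ⟨x1, x2, x3, x4⟩ := sqrel X hXp hXX
  obtain ⟨y1, y2, y3, y4⟩ := sqrel Y hYp hYY
  -- non-degeneracy
  have hW : Y.b0 * X.a0 + c * (Y.a0 * X.b0) ≠ 0 := by
    intro h
    apply hne
    ext <;> simp [hEp, hEa.1, hEa.2, hEb.1, hEb.2, hXp, hYp, h]
  have hz0 := congrArg Lam.z0 hXY
  have hz1 := congrArg Lam.z1 hXY
  simp [algebraMap_def, hXp, hYp] at hz0 hz1
  by_cases hcase : X.a0 = 0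
  · -- the swapped case
    have hYa : Y.a0 ≠ 0 := fun h => hW (by rw [hcase, h]; ring)
    have hXb : X.b0 ≠ 0 := fun h => hW (by rw [hcase, h]; ring)
    have hYb : Y.b0 = 0 := (mul_eq_zero.mp y3).resolve_left hYa
    have hYp1 : Y.p1 = 0 := (mul_eq_zero.mp y1).resolve_right hYa
    have hXp1 : X.p1 = 0 := (mul_eq_zero.mp x2).resolve_right hXb
    rw [hcase, hYb] at hz0
    rw [hcase, hYb, hYp1, hXp1] at hz1
    rw [hcase, hXp1] at x4
    rw [hYb, hYp1] at y4
    have hXa1 : X.a1 = 0 := by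
      have : ((1 + c) * X.b0) * X.a1 = 0 := by linear_combination x4
      exact (mul_eq_zero.mp this).resolve_left (mul_ne_zero hc1 hXb)
    have hYb1 : Y.b1 = 0 := by
      have : ((1 + c) * Y.a0) * Y.b1 = 0 := by linear_combination y4
      exact (mul_eq_zero.mp this).resolve_left (mul_ne_zero hc1 hYa)
    rw [hXa1, hYb1] at hz1
    have hs : σ c * c = 1 := by
      have : (X.b0 * Y.a0) * (σ c * c - 1) = 0 := by linear_combination -hz0
      have := (mul_eq_zero.mp this).resolve_left (mul_ne_zero hXb hYa)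
      linear_combination this
    have hs0 : σ c = 0 := by
      have : (X.b0 * Y.a0) * σ c = 0 := by
        linear_combination -hz1 - (X.b1 * Y.a0 + X.b0 * Y.a1) * hs
      exact (mul_eq_zero.mp this).resolve_left (mul_ne_zero hXb hYa)
    rw [hs0, zero_mul] at hs
    exact zero_ne_one hs
  · have hXa : X.a0 ≠ 0 := hcase
    have hXb : X.b0 = 0 := (mul_eq_zero.mp x3).resolve_left hXa
    have hYb : Y.b0 ≠ 0 := fun h => hW (by rw [hXb, h]; ring)
    have hYa : Y.a0 = 0 := (mul_eq_zero.mp y3).resolve_right hYb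
    have hYp1 : Y.p1 = 0 := (mul_eq_zero.mp y2).resolve_right hYb
    have hXp1 : X.p1 = 0 := (mul_eq_zero.mp x1).resolve_right hXa
    rw [hXb, hYa] at hz0
    rw [hXb, hYa, hYp1, hXp1] at hz1
    rw [hXb, hXp1] at x4
    rw [hYa, hYp1] at y4
    have hXb1 : X.b1 = 0 := by
      have : ((1 + c) * X.a0) * X.b1 = 0 := by linear_combination x4
      exact (mul_eq_zero.mp this).resolve_left (mul_ne_zero hc1 hXa)
    have hYa1 : Y.a1 = 0 := by
      have : ((1 + c) * Y.b0) * Y.a1 = 0 := by linear_combination y4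
      exact (mul_eq_zero.mp this).resolve_left (mul_ne_zero hc1 hYb)
    rw [hXb1, hYa1] at hz1
    have hs : σ c = c := by
      have : (X.a0 * Y.b0) * (σ c - c) = 0 := by linear_combination -hz0
      have := (mul_eq_zero.mp this).resolve_left (mul_ne_zero hXa hYb)
      linear_combination this
    rw [hs] at hz1
    have : X.a0 * Y.b0 = 0 := by linear_combination hz1
    exact (mul_ne_zero hXa hYb) this

end Lam

/-! ### The matrix representation -/

section generic

variable {K : Type u} [Field K] {Λ : Type u} [Ring Λ] [Algebra K Λ] {n : ℕ}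
  (B : Module.Basis (Fin n) K Λ)

/-- The matrix of `r ↦ u r + b` acting on `Λ ⊕ K`. -/
noncomputable def affMat (u b : Λ) : Matrix (Fin n ⊕ Unit) (Fin n ⊕ Unit) K :=
  Matrix.fromBlocks (Algebra.leftMulMatrix B u) (Matrix.of fun i _ => B.repr b i) 0 1

lemma affMat_mul (u b u' b' : Λ) :
    affMat B u b * affMat B u' b' = affMat B (u * u') (b + u * b') := by
  unfold affMat
  rw [Matrix.fromBlocks_multiply]
  congr 1
  · simp
  · ext i j
    have h := congrFun (Algebra.leftMulMatrix_mulVec_repr B u b') i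
    simp only [Matrix.add_apply, Matrix.mul_apply, Matrix.of_apply, map_add, Finsupp.add_apply,
      Matrix.mul_one]
    rw [← h, add_comm]
    rfl
  · simp
  · simp

lemma affMat_one : affMat B 1 0 = 1 := by
  unfold affMat
  rw [← Matrix.fromBlocks_one]
  congr 1
  · simp
  · ext i j
    simp

/-- The faithful matrix representation of the affine group. -/
noncomputable def rho : Aff Λ →* GL (Fin n ⊕ Unit) K :=
  MonoidHom.toHomUnits
    { toFun := fun g => affMat B g.u g.b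
      map_one' := by simpa using affMat_one B
      map_mul' := fun g h => by simp [affMat_mul] }

lemma rho_coe (g : Aff Λ) : (rho B g : Matrix (Fin n ⊕ Unit) (Fin n ⊕ Unit) K) =
    affMat B g.u g.b := rfl

lemma affMat_inj {u b u' b' : Λ} (h : affMat B u b = affMat B u' b') : u = u' ∧ b = b' := by
  unfold affMat at h
  rw [Matrix.fromBlocks_inj] at h
  refine ⟨Algebra.leftMulMatrix_injective B h.1, B.repr.injective ?_⟩
  ext i
  exact congrFun (congrFun h.2.1 i) ()

lemma rho_injective : Function.Injective (rho B) := by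
  intro g h hgh
  have h1 : affMat B g.u g.b = affMat B h.u h.b := by
    rw [← rho_coe, ← rho_coe, hgh]
  obtain ⟨h2, h3⟩ := affMat_inj B h1
  ext
  · rw [h2]
  · exact h3

/-- the isomorphism of the affine group with its image -/
noncomputable def rhoEquiv : Aff Λ ≃* (rho B).range := MonoidHom.ofInjective (rho_injective B)

lemma rhoEquiv_coe (g : Aff Λ) : ((rhoEquiv B g : GL (Fin n ⊕ Unit) K)) = rho B g := rfl

lemma leftMul_lin (u : Λ) : Algebra.leftMulMatrix B u =
    ∑ k, B.repr u k • Algebra.leftMulMatrix B (B k) := by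
  conv_lhs => rw [← B.sum_repr u]
  rw [map_sum]
  simp

/-- The entry at `(x, y)` of the affine matrix, as a polynomial in the coordinates. -/
noncomputable def entryPoly (x : (Fin n ⊕ Unit) × (Fin n ⊕ Unit)) :
    MvPolynomial (Fin n ⊕ Fin n) K :=
  match x with
  | (Sum.inl i, Sum.inl j) => ∑ k, MvPolynomial.C (Algebra.leftMulMatrix B (B k) i j) * MvPolynomial.X (Sum.inl k)
  | (Sum.inl i, Sum.inr _) => MvPolynomial.X (Sum.inr i)
  | (Sum.inr _, Sum.inl _) => 0
  | (Sum.inr _, Sum.inr _) => 1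

lemma eval_entryPoly (u b : Λ) (x : (Fin n ⊕ Unit) × (Fin n ⊕ Unit)) :
    MvPolynomial.eval (Sum.elim (fun k => B.repr u k) (fun k => B.repr b k)) (entryPoly B x) =
      affMat B u b x.1 x.2 := by
  obtain ⟨i | i, j | j⟩ := x
  · simp only [entryPoly, affMat, Matrix.fromBlocks_apply₁₁]
    rw [leftMul_lin B u]
    simp [Matrix.sum_apply, mul_comm]
  · simp [entryPoly, affMat]
  · simp [entryPoly, affMat]
  · simp [entryPoly, affMat]

/-- irreducibility of the image -/
lemma irred_range [Infinite K] (χ : MvPolynomial (Fin n) K) (hχ0 : χ ≠ 0)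
    (hχ : ∀ u : Λ, MvPolynomial.eval (fun k => B.repr u k) χ ≠ 0 → IsUnit u) :
    IsIrred (rho B).range := by
  intro p q hpq
  let P : MvPolynomial (Fin n ⊕ Fin n) K := MvPolynomial.bind₁ (entryPoly B) p
  let Q : MvPolynomial (Fin n ⊕ Fin n) K := MvPolynomial.bind₁ (entryPoly B) q
  have hval : ∀ (r : MvPolynomial ((Fin n ⊕ Unit) × (Fin n ⊕ Unit)) K) (g : Aff Λ),
      polyVal (rho B g) r =
      MvPolynomial.eval (Sum.elim (fun k => B.repr (g.u : Λ) k) (fun k => B.repr g.b k))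
        (MvPolynomial.bind₁ (entryPoly B) r) := by
    intro r g
    have h1 := MvPolynomial.eval₂Hom_bind₁ (RingHom.id K)
      (Sum.elim (fun k => B.repr (g.u : Λ) k) (fun k => B.repr g.b k)) (entryPoly B) r
    refine Eq.trans ?_ h1.symm
    have h2 : (fun x : (Fin n ⊕ Unit) × (Fin n ⊕ Unit) =>
        MvPolynomial.eval₂Hom (RingHom.id K)
          (Sum.elim (fun k => B.repr (g.u : Λ) k) (fun k => B.repr g.b k)) (entryPoly B x)) =
        fun x => (rho B g : Matrix (Fin n ⊕ Unit) (Fin n ⊕ Unit) K) x.1 x.2 := by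
      funext x
      rw [rho_coe]
      exact eval_entryPoly B g.u g.b x
    rw [h2]
    rfl
  let C : MvPolynomial (Fin n ⊕ Fin n) K := MvPolynomial.rename Sum.inl χ
  have hC : C ≠ 0 := by
    intro h
    apply hχ0
    exact MvPolynomial.rename_injective _ Sum.inl_injective (by rw [map_zero]; exact h)
  have hzero : P * Q * C = 0 := by
    apply MvPolynomial.funext
    intro s
    rw [map_mul, map_mul, map_zero]
    by_cases hs : MvPolynomial.eval s C = 0
    · rw [hs, mul_zero]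
    · let u : Λ := B.equivFun.symm (fun k => s (Sum.inl k))
      let b : Λ := B.equivFun.symm (fun k => s (Sum.inr k))
      have hu : ∀ k, B.repr u k = s (Sum.inl k) := fun k =>
        congrFun (B.equivFun.apply_symm_apply (fun k => s (Sum.inl k))) k
      have hb : ∀ k, B.repr b k = s (Sum.inr k) := fun k =>
        congrFun (B.equivFun.apply_symm_apply (fun k => s (Sum.inr k))) k
      have hunit : IsUnit u := by
        apply hχ
        simp only [hu]
        rw [MvPolynomial.eval_rename] at hs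
        exact hs
      obtain ⟨v, hv⟩ := hunit
      have h1 := hpq (rho B ⟨v, b⟩) ⟨_, rfl⟩
      rw [hval, hval] at h1
      have hs' : (Sum.elim (fun k => B.repr (v : Λ) k) (fun k => B.repr b k)) = s := by
        funext k
        rcases k with k | k
        · simp [hv, hu]
        · simp [hb]
      simp only [hs'] at h1
      rw [h1, zero_mul]
  rcases mul_eq_zero.mp hzero with h | h
  · rcases mul_eq_zero.mp h with h | h
    · left
      rintro _ ⟨g, rfl⟩
      rw [hval]
      change MvPolynomial.eval _ P = 0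
      rw [h, map_zero]
    · right
      rintro _ ⟨g, rfl⟩
      rw [hval]
      change MvPolynomial.eval _ Q = 0
      rw [h, map_zero]
  · exact absurd h hC

/-- closedness of the image -/
lemma closed_range (hB : ∀ a : Λ, IsUnit (Algebra.leftMulMatrix B a) → IsUnit a) :
    IsZariskiClosed (rho B).range := by
  -- polynomial for the entry `i` of the image of `1`
  let A : Fin n → MvPolynomial ((Fin n ⊕ Unit) × (Fin n ⊕ Unit)) K := fun k =>
    ∑ l, MvPolynomial.C (B.repr 1 l) * MvPolynomial.X (Sum.inl k, Sum.inl l)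
  let E1 : Fin n × Fin n → MvPolynomial ((Fin n ⊕ Unit) × (Fin n ⊕ Unit)) K := fun x =>
    MvPolynomial.X (Sum.inl x.1, Sum.inl x.2) -
      ∑ k, A k * MvPolynomial.C (Algebra.leftMulMatrix B (B k) x.1 x.2)
  let E2 : Fin n → MvPolynomial ((Fin n ⊕ Unit) × (Fin n ⊕ Unit)) K := fun j =>
    MvPolynomial.X (Sum.inr (), Sum.inl j)
  let E3 : MvPolynomial ((Fin n ⊕ Unit) × (Fin n ⊕ Unit)) K :=
    MvPolynomial.X (Sum.inr (), Sum.inr ()) - 1
  have hA : ∀ (g : GL (Fin n ⊕ Unit) K) (k : Fin n), polyVal g (A k) =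
      ∑ l, B.repr 1 l * (g : Matrix (Fin n ⊕ Unit) (Fin n ⊕ Unit) K) (Sum.inl k) (Sum.inl l) := by
    intro g k
    simp [polyVal, A]
  refine ⟨Set.range E1 ∪ Set.range E2 ∪ {E3}, fun g => ⟨?_, ?_⟩⟩
  · rintro ⟨h, rfl⟩ p hp
    have h11 : ∀ i j, (rho B h : Matrix (Fin n ⊕ Unit) (Fin n ⊕ Unit) K) (Sum.inl i) (Sum.inl j) =
        Algebra.leftMulMatrix B (h.u : Λ) i j := fun i j => rfl
    have hAk : ∀ k, polyVal (rho B h) (A k) = B.repr (h.u : Λ) k := by
      intro k
      rw [hA]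
      have h2 := congrFun (Algebra.leftMulMatrix_mulVec_repr B (h.u : Λ) 1) k
      rw [mul_one] at h2
      rw [← h2]
      simp only [h11, Matrix.mulVec, dotProduct]
      exact Finset.sum_congr rfl fun l _ => mul_comm _ _
    rcases hp with (⟨x, rfl⟩ | ⟨j, rfl⟩) | rfl
    · have h3 : polyVal (rho B h) (E1 x) = (rho B h : Matrix (Fin n ⊕ Unit) (Fin n ⊕ Unit) K) (Sum.inl x.1) (Sum.inl x.2) -
          ∑ k, polyVal (rho B h) (A k) * Algebra.leftMulMatrix B (B k) x.1 x.2 := by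
        simp [polyVal, E1]
      rw [h3, h11, leftMul_lin B (h.u : Λ)]
      simp only [hAk, Matrix.sum_apply, Matrix.smul_apply, smul_eq_mul]
      exact sub_self _
    · simp [polyVal, E2, rho_coe, affMat]
    · simp [polyVal, E3, rho_coe, affMat]
  · intro hg
    let a : Λ := ∑ k, polyVal g (A k) • B k
    let b : Λ := ∑ k, (g : Matrix (Fin n ⊕ Unit) (Fin n ⊕ Unit) K) (Sum.inl k) (Sum.inr ()) • B k
    have hE1 : ∀ i j, (g : Matrix (Fin n ⊕ Unit) (Fin n ⊕ Unit) K) (Sum.inl i) (Sum.inl j) =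
        Algebra.leftMulMatrix B a i j := by
      intro i j
      have h1 := hg (E1 (i, j)) (Or.inl (Or.inl ⟨_, rfl⟩))
      have h3 : polyVal g (E1 (i, j)) = (g : Matrix (Fin n ⊕ Unit) (Fin n ⊕ Unit) K) (Sum.inl i) (Sum.inl j) -
          ∑ k, polyVal g (A k) * Algebra.leftMulMatrix B (B k) i j := by
        simp [polyVal, E1]
      rw [h3] at h1
      rw [sub_eq_zero.mp h1]
      simp [a, Matrix.sum_apply]
    have hE2 : ∀ j, (g : Matrix (Fin n ⊕ Unit) (Fin n ⊕ Unit) K) (Sum.inr ()) (Sum.inl j) = 0 := by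
      intro j
      have h1 := hg (E2 j) (Or.inl (Or.inr ⟨_, rfl⟩))
      simpa [polyVal, E2] using h1
    have hE3 : (g : Matrix (Fin n ⊕ Unit) (Fin n ⊕ Unit) K) (Sum.inr ()) (Sum.inr ()) = 1 := by
      have h1 := hg E3 (Or.inr rfl)
      have h2 : (g : Matrix (Fin n ⊕ Unit) (Fin n ⊕ Unit) K) (Sum.inr ()) (Sum.inr ()) - 1 = 0 := by
        simpa [polyVal, E3] using h1
      exact sub_eq_zero.mp h2
    have hgm : (g : Matrix (Fin n ⊕ Unit) (Fin n ⊕ Unit) K) = affMat B a b := by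
      ext x y
      rcases x with i | i <;> rcases y with j | j
      · simp [hE1, affMat]
      · simp [affMat, b, Finsupp.single_apply]
      · simp [hE2, affMat]
      · simp [hE3, affMat]
    have hdet : IsUnit (Algebra.leftMulMatrix B a) := by
      rw [Matrix.isUnit_iff_isUnit_det]
      have h1 : IsUnit (g : Matrix (Fin n ⊕ Unit) (Fin n ⊕ Unit) K).det :=
        (Matrix.isUnit_iff_isUnit_det _).mp g.isUnit
      rw [hgm] at h1
      unfold affMat at h1
      rw [Matrix.det_fromBlocks_zero₂₁] at h1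
      simpa using h1
    obtain ⟨u, hu⟩ := hB a hdet
    refine ⟨⟨u, b⟩, ?_⟩
    apply Units.ext
    rw [hgm, rho_coe, hu]

end generic

/-! ### Derivations -/

lemma lift_lemma {k K A : Type*} [Field k] [Field K] [CommRing A] [Algebra k K]
    [Algebra.FormallySmooth k K] (π : A →+* K) (hπ : Function.Surjective π)
    (hnil : IsNilpotent (RingHom.ker π)) (j : k →+* A) (hj : π.comp j = algebraMap k K) :
    ∃ τ : K →+* A, π.comp τ = RingHom.id K ∧ τ.comp (algebraMap k K) = j := by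
  let _ : Algebra k A := j.toAlgebra
  let g : A →ₐ[k] K := AlgHom.mk π (fun r => RingHom.congr_fun hj r)
  have hg : Function.Surjective g := hπ
  have hnil' : IsNilpotent (RingHom.ker (g : A →+* K)) := hnil
  let τ := Algebra.FormallySmooth.liftOfSurjective (AlgHom.id k K) g hg hnil'
  refine ⟨τ, ?_, ?_⟩
  · ext x
    exact Algebra.FormallySmooth.liftOfSurjective_apply (AlgHom.id k K) g hg hnil' x
  · ext x
    exact τ.commutes x

lemma formallySmooth_char_zero (k K : Type*) [Field k] [Field K] [CharZero k] [Algebra k K] :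
    Algebra.FormallySmooth k K := by
  obtain ⟨s, hs⟩ := exists_isTranscendenceBasis k K
  have h1 : Algebra.IsAlgebraic (IntermediateField.adjoin k (Set.range ((↑) : s → K))) K := by
    exact hs.isAlgebraic_field
  have h2 : Algebra.IsSeparable (IntermediateField.adjoin k (Set.range ((↑) : s → K))) K :=
    inferInstance
  exact Algebra.FormallySmooth.of_algebraicIndependent_of_isSeparable hs.1

open Polynomial in
lemma exists_derivation (K : Type*) [Field K] [CharZero K] (c : K) (hc : Transcendental ℚ c) :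
    ∃ D : K → K, (∀ x y, D (x + y) = D x + D y) ∧ (∀ x y, D (x * y) = x * D y + D x * y) ∧
      D c = 1 := by
  -- base field `ℚ(X)`
  have hinj : Function.Injective (aeval (R := ℚ) c) := transcendental_iff_injective.mp hc
  let k := FractionRing ℚ[X]
  let i0 : k →+* K := IsFractionRing.lift (A := ℚ[X]) (K := k) (g := (aeval (R := ℚ) c : ℚ[X] →+* K)) hinj
  let _ : Algebra k K := i0.toAlgebra
  have : CharZero k := inferInstance
  have := formallySmooth_char_zero k K
  let A := DualNumber K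
  let π : A →+* K := (TrivSqZeroExt.fstHom K K K : DualNumber K →ₐ[K] K)
  have hπ : Function.Surjective π := fun x => ⟨TrivSqZeroExt.inl x, rfl⟩
  have hker : ∀ a ∈ RingHom.ker π, ∀ b ∈ RingHom.ker π, a * b = 0 := by
    intro a ha b hb
    have ha' : a.fst = 0 := ha
    have hb' : b.fst = 0 := hb
    refine TrivSqZeroExt.ext ?_ ?_
    · change a.fst * b.fst = 0
      rw [ha', zero_mul]
    · change a.fst • b.snd + MulOpposite.op b.fst • a.snd = 0
      rw [ha', hb']
      simp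
  have hnil : IsNilpotent (RingHom.ker π) := by
    refine ⟨2, ?_⟩
    have h2 : RingHom.ker π ^ 2 ≤ ⊥ := by
      rw [sq, Ideal.mul_le]
      intro a ha b hb
      rw [hker a ha b hb]
      exact Submodule.zero_mem _
    exact eq_bot_iff.mpr h2
  let j0 : ℚ[X] →+* A := (aeval (R := ℚ) (TrivSqZeroExt.inl c + TrivSqZeroExt.inr 1 : DualNumber K) : ℚ[X] →+* A)
  have hπj : ∀ p : ℚ[X], π (j0 p) = aeval (R := ℚ) c p := by
    intro p
    let π' : DualNumber K →ₐ[ℚ] K := TrivSqZeroExt.fstHom ℚ K K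
    have h1 : π (j0 p) = π' (aeval (R := ℚ) (TrivSqZeroExt.inl c + TrivSqZeroExt.inr 1 : DualNumber K) p) := rfl
    rw [h1, ← aeval_algHom_apply]
    congr 2
    change (TrivSqZeroExt.inl c + TrivSqZeroExt.inr 1 : DualNumber K).fst = c
    simp
  have hunit : ∀ p : nonZeroDivisors ℚ[X], IsUnit (j0 p) := by
    intro p
    have hp : (p : ℚ[X]) ≠ 0 := nonZeroDivisors.ne_zero p.2
    have h1 : π (j0 p) ≠ 0 := by
      rw [hπj]
      intro h
      exact hp (hinj (by rw [h, map_zero]))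
    rw [TrivSqZeroExt.isUnit_iff_isUnit_fst]
    exact isUnit_iff_ne_zero.mpr h1
  let j : k →+* A := IsLocalization.lift (M := nonZeroDivisors ℚ[X]) (g := j0) hunit
  have hj : π.comp j = algebraMap k K := by
    refine IsLocalization.ringHom_ext (nonZeroDivisors ℚ[X]) ?_
    ext p
    · simp
    · change π (j (algebraMap ℚ[X] k X)) = i0 (algebraMap ℚ[X] k X)
      have h1 : j (algebraMap ℚ[X] k X) = j0 X := IsLocalization.lift_eq hunit X
      have h2 : i0 (algebraMap ℚ[X] k X) = aeval (R := ℚ) c X := IsFractionRing.lift_algebraMap hinj X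
      rw [h1, h2, hπj]
  obtain ⟨τ, h1, h2⟩ := lift_lemma π hπ hnil j hj
  have hfst : ∀ x, (τ x).fst = x := fun x => RingHom.congr_fun h1 x
  refine ⟨fun x => (τ x).snd, ?_, ?_, ?_⟩
  · intro x y
    simp only [map_add]
    rfl
  · intro x y
    simp only [map_mul]
    change (τ x).fst • (τ y).snd + MulOpposite.op (τ y).fst • (τ x).snd = _
    rw [hfst, hfst]
    simp
  · have h3 : τ c = j (algebraMap ℚ[X] k X) := by
      rw [← h2]
      change τ c = τ (i0 (algebraMap ℚ[X] k X))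
      have h4 : i0 (algebraMap ℚ[X] k X) = aeval (R := ℚ) c X := IsFractionRing.lift_algebraMap hinj X
      rw [h4, aeval_X]
    have h1 : j (algebraMap ℚ[X] k X) = j0 X := IsLocalization.lift_eq hunit X
    have h5 : j0 X = (TrivSqZeroExt.inl c + TrivSqZeroExt.inr 1 : DualNumber K) := by
      change aeval (R := ℚ) (TrivSqZeroExt.inl c + TrivSqZeroExt.inr 1 : DualNumber K) X = _
      rw [aeval_X]
    change (τ c).snd = 1
    rw [h3, h1, h5]
    simp

/-! ### Semialgebraic isomorphisms -/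

lemma additive_poly {K : Type u} [Field K] [CharZero K] (P : Polynomial K)
    (h : ∀ s t : K, P.eval (s + t) = P.eval s + P.eval t) (t : K) :
    P.eval t = t * P.eval 1 := by
  have h0 : P.eval 0 = 0 := by
    have := h 0 0
    rw [add_zero] at this
    exact left_eq_add.mp this
  have hn : ∀ m : ℕ, P.eval (m : K) = m * P.eval 1 := by
    intro m
    induction m with
    | zero => simp [h0]
    | succ m ih => rw [Nat.cast_succ, h, ih]; ring
  have hQ : P - Polynomial.X * Polynomial.C (P.eval 1) = 0 := by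
    apply Polynomial.eq_zero_of_infinite_isRoot
    refine Set.Infinite.mono ?_ (Set.infinite_range_of_injective (Nat.cast_injective (R := K)))
    rintro _ ⟨m, rfl⟩
    change Polynomial.IsRoot _ _
    rw [Polynomial.IsRoot.def, Polynomial.eval_sub, Polynomial.eval_mul, Polynomial.eval_X,
      Polynomial.eval_C, hn, sub_self]
  have h1 := congrArg (Polynomial.eval t) hQ
  rw [Polynomial.eval_sub, Polynomial.eval_mul, Polynomial.eval_X, Polynomial.eval_C,
    Polynomial.eval_zero] at h1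
  exact sub_eq_zero.mp h1

section semi

variable {K : Type u} [Field K] [CharZero K] {Λ₁ Λ₂ : Type u} [Ring Λ₁] [Ring Λ₂]
  [Algebra K Λ₁] [Algebra K Λ₂] {n m : ℕ}
  (B₁ : Module.Basis (Fin n) K Λ₁) (B₂ : Module.Basis (Fin m) K Λ₂)

/-- A semialgebraic isomorphism of the affine groups gives a semilinear ring isomorphism. -/
lemma ringEquiv_of_semialgebraic (h₁ : Loc Λ₁) (h₂ : Loc Λ₂)
    (φ : (rho B₁).range ≃* (rho B₂).range) (hφ : IsSemialgebraic φ) :
    ∃ (θ : Λ₁ ≃+* Λ₂) (σ : K ≃+* K), ∀ k : K, θ (algebraMap K Λ₁ k) = algebraMap K Λ₂ (σ k) := by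
  obtain ⟨σ, α, hα, -, hσα⟩ := hφ
  let Φ : Aff Λ₁ ≃* Aff Λ₂ := ((rhoEquiv B₁).trans φ).trans (rhoEquiv B₂).symm
  obtain ⟨θ, e, he, hθ⟩ := exists_ringEquiv h₁ h₂ Φ
  have hΦ : ∀ g : Aff Λ₁, (φ (rhoEquiv B₁ g) : GL (Fin m ⊕ Unit) K) = rho B₂ (Φ g) := by
    intro g
    rw [← rhoEquiv_coe]
    congr 1
    exact ((rhoEquiv B₂).apply_symm_apply _).symm
  refine ⟨θ, σ, fun k => ?_⟩
  -- the image of the translation by `σ⁻¹(t)`
  have hpoly : ∀ i : Fin m, ∃ P : Polynomial K, ∀ t : K,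
      B₂.repr (θ (algebraMap K Λ₁ (σ.symm t)) * e) i = P.eval t := by
    intro i
    obtain ⟨p, hp⟩ := hα (Sum.inl i) (Sum.inr ())
    let s : Option ((Fin n ⊕ Unit) × (Fin n ⊕ Unit)) → Polynomial K := fun o => Option.elim o 1
      (fun x => match x with
        | (Sum.inl i, Sum.inl j) => if i = j then 1 else 0
        | (Sum.inl i, Sum.inr _) => Polynomial.X * Polynomial.C (σ (B₁.repr 1 i))
        | (Sum.inr _, Sum.inl _) => 0
        | (Sum.inr _, Sum.inr _) => 1)
    refine ⟨MvPolynomial.aeval s p, fun t => ?_⟩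
    have h1 : B₂.repr (θ (algebraMap K Λ₁ (σ.symm t)) * e) i =
        ((φ (rhoEquiv B₁ ⟨1, algebraMap K Λ₁ (σ.symm t)⟩) : GL (Fin m ⊕ Unit) K) :
          Matrix (Fin m ⊕ Unit) (Fin m ⊕ Unit) K) (Sum.inl i) (Sum.inr ()) := by
      rw [hΦ, hθ, rho_coe]
      simp [affMat]
    rw [h1, hσα, hp]
    have h2 : Polynomial.eval t (MvPolynomial.aeval s p) =
        MvPolynomial.eval (fun o => Polynomial.eval t (s o)) p := by
      have := MvPolynomial.eval₂_comp_left (Polynomial.evalRingHom t) Polynomial.C s p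
      rw [Polynomial.coe_evalRingHom] at this
      rw [MvPolynomial.aeval_def, Polynomial.algebraMap_eq, this]
      congr 1
      ext x
      simp
    rw [h2]
    unfold regVal
    congr 2
    have hM : ((conjHom σ (rho B₁).range (rhoEquiv B₁ ⟨1, algebraMap K Λ₁ (σ.symm t)⟩) :
        GL (Fin n ⊕ Unit) K) : Matrix (Fin n ⊕ Unit) (Fin n ⊕ Unit) K) =
        (affMat B₁ 1 (algebraMap K Λ₁ (σ.symm t))).map σ := rfl
    have hrepr : ∀ j, B₁.repr (algebraMap K Λ₁ (σ.symm t)) j = σ.symm t * B₁.repr 1 j := by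
      intro j
      rw [Algebra.algebraMap_eq_smul_one, map_smul, Finsupp.smul_apply, smul_eq_mul]
    funext o
    rcases o with _ | ⟨x | x, y | y⟩
    · simp only [Option.elim_none, s, Polynomial.eval_one]
      rw [hM]
      have h3 : ((affMat B₁ 1 (algebraMap K Λ₁ (σ.symm t))).map σ).det =
          σ (affMat B₁ 1 (algebraMap K Λ₁ (σ.symm t))).det :=
        (RingHom.map_det (σ : K →+* K) (affMat B₁ 1 (algebraMap K Λ₁ (σ.symm t)))).symm
      rw [h3]
      unfold affMat
      rw [Matrix.det_fromBlocks_zero₂₁]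
      simp
    · simp only [Option.elim_some, s]
      rw [hM]
      by_cases hxy : x = y
      · simp [affMat, hxy]
      · simp [affMat, hxy]
    · simp only [Option.elim_some, s]
      rw [hM]
      simp [affMat, hrepr]
      exact mul_comm _ _
    · simp only [Option.elim_some, s]
      rw [hM]
      simp [affMat]
    · simp only [Option.elim_some, s]
      rw [hM]
      simp [affMat]
  -- additivity
  have hlin : ∀ (i : Fin m) (t : K), B₂.repr (θ (algebraMap K Λ₁ (σ.symm t)) * e) i =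
      t * B₂.repr e i := by
    intro i t
    obtain ⟨P, hP⟩ := hpoly i
    have hadd : ∀ s t : K, P.eval (s + t) = P.eval s + P.eval t := by
      intro s t
      rw [← hP, ← hP, ← hP, ← Finsupp.add_apply, ← map_add]
      simp only [map_add, add_mul]
    have h1 := additive_poly P hadd t
    rw [hP, h1, ← hP]
    simp
  have h4 : θ (algebraMap K Λ₁ k) * e = algebraMap K Λ₂ (σ k) * e := by
    apply B₂.repr.injective
    ext i
    have h5 := hlin i (σ k)
    rw [RingEquiv.symm_apply_apply] at h5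
    rw [h5, ← Algebra.smul_def, map_smul, Finsupp.smul_apply, smul_eq_mul]
  exact he.mul_right_cancel h4

end semi

section Lambasis

variable {K : Type u} [Field K] {l0 l1 : K}

/-- coordinates on `Lam` -/
def lamEquiv : Lam K l0 l1 ≃ₗ[K] (Fin 8 → K) where
  toFun s := ![s.p0, s.p1, s.a0, s.a1, s.b0, s.b1, s.z0, s.z1]
  invFun v := ⟨v 0, v 1, v 2, v 3, v 4, v 5, v 6, v 7⟩
  left_inv s := by ext <;> rfl
  right_inv v := by
    funext i
    fin_cases i <;> rfl
  map_add' s t := by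
    funext i
    fin_cases i <;> rfl
  map_smul' k s := by
    rw [Lam.smul_def]
    funext i
    fin_cases i <;> rfl

/-- the standard basis of `Lam` -/
noncomputable def lamBasis : Module.Basis (Fin 8) K (Lam K l0 l1) := Module.Basis.ofEquivFun lamEquiv

lemma lamBasis_repr (s : Lam K l0 l1) (i : Fin 8) : lamBasis.repr s i = lamEquiv s i := by
  simp [lamBasis]

lemma lam_closed : IsZariskiClosed (rho (lamBasis (K := K) (l0 := l0) (l1 := l1))).range := by
  apply closed_range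
  intro a ha
  rw [Lam.isUnit_iff]
  intro h0
  -- `a * εyx = 0`
  let w : Lam K l0 l1 := ⟨0, 0, 0, 0, 0, 0, 0, 1⟩
  have h1 : a * w = 0 := by ext <;> simp [w, h0]
  have h2 := Algebra.leftMulMatrix_mulVec_repr lamBasis a w
  rw [h1, map_zero] at h2
  obtain ⟨v, hv⟩ := ha
  have h3 : (lamBasis.repr w : Fin 8 → K) = 0 := by
    have h4 : ((v⁻¹ : (Matrix (Fin 8) (Fin 8) K)ˣ) : Matrix (Fin 8) (Fin 8) K) *ᵥ
        (Algebra.leftMulMatrix lamBasis a *ᵥ (lamBasis.repr w : Fin 8 → K)) = 0 := by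
      rw [h2]
      simp
    rw [← hv, Matrix.mulVec_mulVec, Units.inv_mul, Matrix.one_mulVec] at h4
    exact h4
  have h5 := congrFun h3 7
  rw [lamBasis_repr] at h5
  simp [lamEquiv, w] at h5

lemma lam_irred [Infinite K] : IsIrred (rho (lamBasis (K := K) (l0 := l0) (l1 := l1))).range := by
  refine irred_range _ (MvPolynomial.X 0) (MvPolynomial.X_ne_zero 0) ?_
  intro u hu
  rw [MvPolynomial.eval_X, lamBasis_repr] at hu
  exact Lam.isUnit_of_ne u hu

end Lambasis

lemma center_eq_bot_of_equiv {G H : Type*} [Group G] [Group H] (e : G ≃* H)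
    (h : Subgroup.center G = ⊥) : Subgroup.center H = ⊥ := by
  rw [eq_bot_iff]
  intro x hx
  rw [Subgroup.mem_center_iff] at hx
  have h1 : e.symm x ∈ Subgroup.center G := by
    rw [Subgroup.mem_center_iff]
    intro g
    apply e.injective
    rw [map_mul, map_mul, e.apply_symm_apply]
    exact hx _
  rw [h, Subgroup.mem_bot] at h1
  rw [Subgroup.mem_bot, ← e.apply_symm_apply x, h1, map_one]

/-- the affine group isomorphism induced by a ring isomorphism -/
def affCongr {Λ₁ Λ₂ : Type*} [Ring Λ₁] [Ring Λ₂] (θ : Λ₁ ≃+* Λ₂) : Aff Λ₁ ≃* Aff Λ₂ where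
  toFun g := ⟨Units.mapEquiv θ.toMulEquiv g.u, θ g.b⟩
  invFun g := ⟨Units.mapEquiv θ.symm.toMulEquiv g.u, θ.symm g.b⟩
  left_inv g := by ext <;> simp
  right_inv g := by ext <;> simp
  map_mul' g h := by ext <;> simp

lemma exists_counterexample (K : Type u) [Field K] [CharZero K] (c : K) (hc : Transcendental ℚ c) :
    ∃ G H : Subgroup (GL (Fin 8 ⊕ Unit) K),
      IsZariskiClosed G ∧ IsZariskiClosed H ∧ IsIrred G ∧ IsIrred H ∧
      Subgroup.center G = ⊥ ∧ Subgroup.center H = ⊥ ∧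
      IsIndecomposable G ∧ IsIndecomposable H ∧
      Nonempty (G ≃* H) ∧
      (¬ ∃ φ : G ≃* H, IsSemialgebraic φ) ∧ (¬ ∃ φ : H ≃* G, IsSemialgebraic φ) := by
  obtain ⟨D, hadd, hmul, hD⟩ := exists_derivation K c hc
  have hc1 : c ≠ 1 := by
    rintro rfl
    exact hc (isAlgebraic_one)
  have hc2 : c ≠ -1 := by
    rintro rfl
    exact hc (isAlgebraic_one.neg)
  have L1 : Loc (Lam K c 0) := Lam.loc
  have L2 : Loc (Lam K c 1) := Lam.loc
  let e1 := rhoEquiv (lamBasis (K := K) (l0 := c) (l1 := 0))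
  let e2 := rhoEquiv (lamBasis (K := K) (l0 := c) (l1 := 1))
  refine ⟨(rho (lamBasis (K := K) (l0 := c) (l1 := 0))).range,
    (rho (lamBasis (K := K) (l0 := c) (l1 := 1))).range, lam_closed, lam_closed, lam_irred,
    lam_irred, center_eq_bot_of_equiv e1 L1.toGood.center_eq_bot,
    center_eq_bot_of_equiv e2 L2.toGood.center_eq_bot, ?_, ?_, ?_, ?_, ?_⟩
  · intro A B _ _ ⟨e⟩
    exact L1.toGood.indecomposable (e1.trans e)
  · intro A B _ _ ⟨e⟩
    exact L2.toGood.indecomposable (e2.trans e)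
  · exact ⟨(e1.symm.trans (affCongr (Lam.twist c D hadd hmul hD))).trans e2⟩
  · rintro ⟨φ, hφ⟩
    obtain ⟨θ, σ, hθ⟩ := ringEquiv_of_semialgebraic _ _ L1 L2 φ hφ
    exact Lam.no_iso c hc1 hc2 θ σ hθ
  · rintro ⟨φ, hφ⟩
    obtain ⟨θ, σ, hθ⟩ := ringEquiv_of_semialgebraic _ _ L2 L1 φ hφ
    refine Lam.no_iso c hc1 hc2 θ.symm σ.symm fun k => ?_
    rw [RingEquiv.symm_apply_eq, hθ, RingEquiv.apply_symm_apply]

/-- The negated form of Q1 holds for `K`, with connected linear algebraic groups: `G` and `H` are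
Zariski closed irreducible subgroups of `GL_9(K)` with trivial centres, directly indecomposable
even as abstract groups, which are isomorphic as abstract groups, and no isomorphism `G ≃ H` and
no isomorphism `H ≃ G` is semialgebraic. -/
def ConnectedCounterexample (K : Type u) [Field K] : Prop :=
  ∃ G H : Subgroup (GL (Fin 8 ⊕ Unit) K),
    IsZariskiClosed G ∧ IsZariskiClosed H ∧ IsIrred G ∧ IsIrred H ∧
    Subgroup.center G = ⊥ ∧ Subgroup.center H = ⊥ ∧
    IsIndecomposable G ∧ IsIndecomposable H ∧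
    Nonempty (G ≃* H) ∧
    (¬ ∃ φ : G ≃* H, IsSemialgebraic φ) ∧ (¬ ∃ φ : H ≃* G, IsSemialgebraic φ)

lemma counterexample_of_not_algebraic (K : Type u) [Field K] [CharZero K]
    (hK : ¬ Algebra.IsAlgebraic ℚ K) : ConnectedCounterexample K := by
  have h1 : ∃ c : K, Transcendental ℚ c := by
    by_contra h
    push Not at h
    exact hK ⟨fun c => by
      have := h c
      rwa [Transcendental, not_not] at this⟩
  obtain ⟨c, hc⟩ := h1
  exact exists_counterexample K c hc

lemma not_algebraic_complex : ¬ Algebra.IsAlgebraic ℚ ℂ := by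
  intro h
  have h1 : {x : ℂ | IsAlgebraic ℚ x} = Set.univ := Set.eq_univ_of_forall fun x => h.isAlgebraic x
  have h2 := Algebraic.countable ℚ ℂ
  rw [h1] at h2
  exact not_countable_complex h2

/-- **Main result.** The answer to Q1 is negative, even for connected linear algebraic groups:
over every algebraically closed field of characteristic zero which is not algebraic over `ℚ`,
and in particular over the algebraically closed field `ℂ`, there is a counterexample. -/
theorem result :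
    (∀ (K : Type u) [Field K] [IsAlgClosed K] [CharZero K], ¬ Algebra.IsAlgebraic ℚ K →
      ConnectedCounterexample K) ∧ ConnectedCounterexample ℂ :=
  ⟨fun K _ _ _ hK => counterexample_of_not_algebraic K hK,
    counterexample_of_not_algebraic ℂ not_algebraic_complex⟩

end Pool.Agent.Results.MP_83c24b_al.Connected
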